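import Pool.Agent.Lib_helper69.HM.Z1
import Pool.Agent.Lib_helper69.HM.Z2

open MeasureTheory Finset Filter
open scoped ENNReal

namespace Pool.Agent.HM

/-- the boundary values next to `B` are at most `δ` -/
def Small (B : Finset (ℤ × ℤ)) (ξ : ℤ × ℤ → ℝ) (δ : ℝ) : Prop :=
  ∀ p ∈ edges zstp B, (p.1 ∉ B → |ξ p.1| ≤ δ) ∧
    (p.1 + zstp p.2 ∉ B → |ξ (p.1 + zstp p.2)| ≤ δ)

theorem B2a_empty {G : Type} [AddCommGroup G] [DecidableEq G] (ρ : ℝ → ℝ) (m : ℝ)
    (stp : Bool → G) (ξ : G → ℝ) : lm ∅ (wt ρ m stp ∅) ξ = 1 := by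
  unfold lm
  rw [lmarginal_empty]
  unfold wt edges
  simp

/-- lower bound by one window: all boundary values at most `δ₀` -/
theorem small_bdry {ρ : ℝ → ℝ} (hρ : EdgeWeight ρ) {m : ℝ} (hm : 0 < m) :
    ∃ c : ℝ, 0 < c ∧ ∃ δ₀ : ℝ, 0 < δ₀ ∧ ∀ (B : Finset (ℤ × ℤ)) (ξ : ℤ × ℤ → ℝ),
      Small B ξ δ₀ → ENNReal.ofReal c ^ B.card ≤ lm B (wt ρ m zstp B) ξ := by
  classical
  obtain ⟨a, ha, hρa⟩ := hρ.pos
  have hδ : 0 < a / 4 := by linarith
  refine ⟨2 * (a / 4) * ρ a ^ 4 * Real.exp (-(m ^ 2 * (|(0 : ℝ)| + a / 4) ^ 2 / 2)), by positivity,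
    a / 2, by linarith, ?_⟩
  intro B ξ hS
  have hφ : ∀ x : ℤ × ℤ, |(if x ∈ B then (0 : ℝ) else ξ x)| = if x ∈ B then 0 else |ξ x| := by
    intro x
    split_ifs
    · exact abs_zero
    · rfl
  have key := window hρ (a := a) hδ m zstp (B := B) (B' := ∅) (Finset.empty_subset B)
    (fun x => if x ∈ B then 0 else ξ x) ξ
    (fun x hx => by simp only [hx, if_false])
    (by
      intro p hp _
      have h1 := hS p hp
      have h2 := mem_edges.1 hp
      show |(if p.1 + zstp p.2 ∈ B then (0 : ℝ) else ξ (p.1 + zstp p.2)) -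
        (if p.1 ∈ B then (0 : ℝ) else ξ p.1)| + 2 * (a / 4) ≤ a
      by_cases h3 : p.1 ∈ B
      · by_cases h4 : p.1 + zstp p.2 ∈ B
        · rw [if_pos h3, if_pos h4, sub_self, abs_zero]; linarith
        · rw [if_pos h3, if_neg h4, sub_zero]
          have := h1.2 h4
          linarith
      · have h4 : p.1 + zstp p.2 ∈ B := h2.resolve_left h3
        rw [if_neg h3, if_pos h4, zero_sub, abs_neg]
        have := h1.1 h3
        linarith)
    1 (fun ξ' _ => (B2a_empty ρ m zstp ξ').ge)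
  rw [mul_one, Finset.sdiff_empty] at key
  refine le_trans (le_of_eq ?_) key
  rw [← Finset.prod_const]
  refine Finset.prod_congr rfl fun x hx => ?_
  simp only [hx, if_true]

theorem B2a_real {C2 c1 C R : ℝ} (hC2 : 0 < C2) (hc1 : 0 < c1) (hR : 0 < R)
    (hC : Real.log C2 - Real.log c1 ≤ C) (n : ℕ) :
    Real.exp (-(C * n / R)) * (C2 ^ n) ^ (1 / R) ≤ (c1 ^ n) ^ (1 / R) := by
  have h2 : 0 < C2 ^ n := by positivity
  have h1 : 0 < c1 ^ n := by positivity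
  rw [Real.rpow_def_of_pos h2, Real.rpow_def_of_pos h1, ← Real.exp_add, Real.exp_le_exp,
    Real.log_pow, Real.log_pow]
  have hn : (0 : ℝ) ≤ n / R := div_nonneg (Nat.cast_nonneg n) hR.le
  have h3 : -(C * n / R) + n * Real.log C2 * (1 / R) - n * Real.log c1 * (1 / R) =
      (n / R) * (Real.log C2 - Real.log c1 - C) := by
    field_simp
    ring
  have h4 : (n / R) * (Real.log C2 - Real.log c1 - C) ≤ 0 :=
    mul_nonpos_of_nonneg_of_nonpos hn (by linarith)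
  linarith

/-- smaller boundary values cost almost nothing -/
theorem small_bdry' {ρ : ℝ → ℝ} (hρ : EdgeWeight ρ) {m : ℝ} (hm : 0 < m) :
    ∃ C : ℝ, 0 < C ∧ ∃ δ₀ : ℝ, 0 < δ₀ ∧ ∀ (B : Finset (ℤ × ℤ)) (R : ℝ), 1 < R →
      ∀ ξ : ℤ × ℤ → ℝ, Small B ξ (δ₀ / R) →
      ENNReal.ofReal (Real.exp (-(C * B.card / R))) * lm B (wt ρ m zstp B) 0 ≤
        lm B (wt ρ m zstp B) ξ := by
  obtain ⟨c1, hc1, δ1, hδ1, hlow⟩ := small_bdry hρ hm
  have hC2 : 0 < Real.sqrt (2 * Real.pi) / m := by positivity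
  obtain ⟨C2, hC2eq⟩ : ∃ C2, C2 = Real.sqrt (2 * Real.pi) / m := ⟨_, rfl⟩
  rw [← hC2eq] at hC2
  refine ⟨|Real.log C2 - Real.log c1| + 1, by positivity, δ1, hδ1, ?_⟩
  intro B R hR ξ hS
  have hR0 : 0 < R := by linarith
  have hRne : R ≠ 0 := hR0.ne'
  have hSm : Small B (R • ξ) δ1 := by
    intro p hp
    obtain ⟨h1, h2⟩ := hS p hp
    have aux : ∀ x : ℤ × ℤ, |ξ x| ≤ δ1 / R → |(R • ξ) x| ≤ δ1 := by
      intro x hx
      rw [Pi.smul_apply, smul_eq_mul, abs_mul, abs_of_pos hR0]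
      rw [le_div_iff₀ hR0] at hx
      linarith
    exact ⟨fun h => aux _ (h1 h), fun h => aux _ (h2 h)⟩
  have hlo := hlow B (R • ξ) hSm
  have hup : lm B (wt ρ m zstp B) 0 ≤ ENNReal.ofReal C2 ^ B.card := by
    have h := lm_wt_le hρ hm zstp (B := B) (B' := ∅) (Finset.empty_subset B) 0
    rw [Finset.sdiff_empty, B2a_empty, mul_one, ← hC2eq] at h
    exact h
  have hZ0 : lm B (wt ρ m zstp B) 0 ≠ 0 := by
    have h := lm_wt_pos_const hρ m zstp B 0
    exact h.ne'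
  have hZt : lm B (wt ρ m zstp B) 0 ≠ ∞ := (lm_wt_lt_top hρ hm zstp B 0).ne
  have hinv : 1 / R < 1 := by rw [div_lt_one hR0]; exact hR
  have hinv0 : 0 < 1 / R := by positivity
  have hlc := lm_lc (nice_wt hρ m zstp B) B (lam := 1 - 1 / R) (by linarith) (by linarith)
    0 (R • ξ)
  have e1 : (1 - (1 - 1 / R)) = 1 / R := by ring
  have e2 : (1 - 1 / R) • (0 : ℤ × ℤ → ℝ) + (1 / R) • (R • ξ) = ξ := by
    rw [smul_zero, zero_add, smul_smul, one_div, inv_mul_cancel₀ hRne, one_smul]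
  rw [e1, e2] at hlc
  refine le_trans ?_ hlc
  have e3 : lm B (wt ρ m zstp B) 0 =
      lm B (wt ρ m zstp B) 0 ^ (1 - 1 / R) * lm B (wt ρ m zstp B) 0 ^ (1 / R) := by
    rw [← ENNReal.rpow_add _ _ hZ0 hZt]
    simp
  have step1 : ENNReal.ofReal (Real.exp (-((|Real.log C2 - Real.log c1| + 1) * B.card / R))) *
      lm B (wt ρ m zstp B) 0 ^ (1 / R) ≤ lm B (wt ρ m zstp B) (R • ξ) ^ (1 / R) := by
    calc _ ≤ ENNReal.ofReal (Real.exp (-((|Real.log C2 - Real.log c1| + 1) * B.card / R))) *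
          (ENNReal.ofReal C2 ^ B.card) ^ (1 / R) :=
          mul_le_mul' le_rfl (ENNReal.rpow_le_rpow hup hinv0.le)
      _ ≤ (ENNReal.ofReal c1 ^ B.card) ^ (1 / R) := by
          rw [← ENNReal.ofReal_pow hC2.le, ← ENNReal.ofReal_pow hc1.le,
            ENNReal.ofReal_rpow_of_pos (by positivity), ENNReal.ofReal_rpow_of_pos (by positivity),
            ← ENNReal.ofReal_mul (Real.exp_pos _).le]
          refine ENNReal.ofReal_le_ofReal (B2a_real hC2 hc1 hR0 ?_ B.card)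
          have := le_abs_self (Real.log C2 - Real.log c1)
          linarith
      _ ≤ _ := ENNReal.rpow_le_rpow hlo hinv0.le
  calc ENNReal.ofReal (Real.exp (-((|Real.log C2 - Real.log c1| + 1) * B.card / R))) *
        lm B (wt ρ m zstp B) 0
      = lm B (wt ρ m zstp B) 0 ^ (1 - 1 / R) *
        (ENNReal.ofReal (Real.exp (-((|Real.log C2 - Real.log c1| + 1) * B.card / R))) *
          lm B (wt ρ m zstp B) 0 ^ (1 / R)) := by
        conv_lhs => rw [e3]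
        ring
    _ ≤ _ := mul_le_mul' le_rfl step1

end Pool.Agent.HM
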